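import Pool.Agent.N549.HG.Stm

/-!
# HG/LOC: pairs of near points in a subset of a ball of the torus
-/

set_option autoImplicit false

namespace Pool.Agent.N342.HG

open MeasureTheory Set Pool.Agent.N549.HG
open scoped ENNReal NNReal

theorem exists_rep (x : UnitAddCircle) : ∃ a : ℝ, (a : UnitAddCircle) = x ∧ |a| = ‖x‖ := by
  obtain ⟨t, rfl⟩ := QuotientAddGroup.mk_surjective x
  refine ⟨t - round t, ?_, ?_⟩
  · have h1 : ((round t : ℝ) : UnitAddCircle) = 0 := by
      rw [AddCircle.coe_eq_zero_iff]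
      exact ⟨round t, by simp⟩
    have h2 : ((t - round t : ℝ) : UnitAddCircle) = (t : UnitAddCircle) - ((round t : ℝ) : UnitAddCircle) := by
      rw [← AddCircle.coe_sub]
    rw [h2, h1, sub_zero]
  · exact (UnitAddCircle.norm_eq).symm

theorem norm_coe_le (c : ℝ) : ‖(c : UnitAddCircle)‖ ≤ |c| := by
  rw [UnitAddCircle.norm_eq]
  have := round_le c 0
  simpa using this

theorem norm_coe_eq {c : ℝ} (hc : |c| ≤ 1 / 2) : ‖(c : UnitAddCircle)‖ = |c| := by
  rw [AddCircle.norm_coe_eq_abs_iff (1 : ℝ) one_ne_zero, abs_one]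
  exact hc

theorem sqd_nonneg {n : ℕ} (x y : Torus n) : 0 ≤ sqd x y :=
  Finset.sum_nonneg fun _ _ => sq_nonneg _

theorem sqd_comm {n : ℕ} (x y : Torus n) : sqd x y = sqd y x := by
  unfold sqd
  refine Finset.sum_congr rfl fun i _ => ?_
  rw [norm_sub_rev]

theorem coord_lt {n : ℕ} (x y : Torus n) {r : ℝ} (hr : 0 < r) (h : sqd x y < r ^ 2) (i : Fin n) :
    ‖x i - y i‖ < r := by
  have h1 : ‖x i - y i‖ ^ 2 ≤ sqd x y :=
    Finset.single_le_sum (f := fun i => ‖x i - y i‖ ^ 2) (fun j _ => sq_nonneg _)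
      (Finset.mem_univ i)
  exact lt_of_pow_lt_pow_left₀ 2 hr.le (h1.trans_lt h)

/-- the geometric lemma -/
theorem geo {n : ℕ} {r : ℝ} (hr : 0 < r) (hr4 : r ≤ 1 / 4) (u v : Torus n)
    (huv : sqd u v < r ^ 2) : ∃ w : Torus n, ∀ y : Torus n, sqd y v < r ^ 2 → sqd y u < r ^ 2 →
      sqd y v ≤ sqd u v → sqd y w < (Real.sqrt 3 / 2 * r) ^ 2 := by
  choose a ha1 ha2 using fun i => exists_rep (u i - v i)
  refine ⟨fun i => v i + ((a i / 2 : ℝ) : UnitAddCircle), fun y hyv hyu hle => ?_⟩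
  choose b hb1 hb2 using fun i => exists_rep (y i - v i)
  have ha4 : ∀ i, |a i| < 1 / 4 := fun i => by
    rw [ha2 i]
    exact (coord_lt u v hr huv i).trans_le hr4
  have hb4 : ∀ i, |b i| < 1 / 4 := fun i => by
    rw [hb2 i]
    exact (coord_lt y v hr hyv i).trans_le hr4
  have hyu' : ∀ i, ‖y i - u i‖ = |b i - a i| := by
    intro i
    have h1 : y i - u i = ((b i - a i : ℝ) : UnitAddCircle) := by
      rw [AddCircle.coe_sub, hb1, ha1]
      abel
    rw [h1]
    apply norm_coe_eq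
    have h2 := abs_sub (b i) (a i)
    have h3 := ha4 i
    have h4 := hb4 i
    linarith
  have hyw : ∀ i, ‖y i - (v i + ((a i / 2 : ℝ) : UnitAddCircle))‖ ≤ |b i - a i / 2| := by
    intro i
    have h1 : y i - (v i + ((a i / 2 : ℝ) : UnitAddCircle)) =
        ((b i - a i / 2 : ℝ) : UnitAddCircle) := by
      rw [AddCircle.coe_sub, hb1]
      abel
    rw [h1]
    exact norm_coe_le _
  have e1 : sqd y v = ∑ i, b i ^ 2 := by
    unfold sqd
    exact Finset.sum_congr rfl fun i _ => by rw [← hb2, sq_abs]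
  have e2 : sqd u v = ∑ i, a i ^ 2 := by
    unfold sqd
    exact Finset.sum_congr rfl fun i _ => by rw [← ha2, sq_abs]
  have e3 : sqd y u = ∑ i, (b i - a i) ^ 2 := by
    unfold sqd
    exact Finset.sum_congr rfl fun i _ => by rw [hyu', sq_abs]
  have e4 : sqd y (fun i => v i + ((a i / 2 : ℝ) : UnitAddCircle)) ≤ ∑ i, (b i - a i / 2) ^ 2 := by
    unfold sqd
    refine Finset.sum_le_sum fun i _ => ?_
    rw [← sq_abs (b i - a i / 2)]
    exact pow_le_pow_left₀ (norm_nonneg _) (hyw i) 2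
  have e5 : ∑ i, (b i - a i / 2) ^ 2 = (∑ i, b i ^ 2) / 2 + (∑ i, (b i - a i) ^ 2) / 2 -
      (∑ i, a i ^ 2) / 4 := by
    rw [Finset.sum_div, Finset.sum_div, Finset.sum_div, ← Finset.sum_add_distrib,
      ← Finset.sum_sub_distrib]
    exact Finset.sum_congr rfl fun i _ => by ring
  rw [e5, ← e1, ← e2, ← e3] at e4
  have e6 : (Real.sqrt 3 / 2 * r) ^ 2 = 3 / 4 * r ^ 2 := by
    rw [mul_pow, div_pow, Real.sq_sqrt (by norm_num)]
    norm_num
  rw [e6]
  linarith

instance (n : ℕ) : IsProbabilityMeasure (vol n) := by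
  unfold vol
  infer_instance

theorem cont_sqd (n : ℕ) : Continuous fun p : Torus n × Torus n => sqd p.1 p.2 := by
  unfold sqd
  fun_prop

theorem ballVol_scale (n : ℕ) {c : ℝ} (hc : 0 < c) (r : ℝ) :
    ballVol n (c * r) = c ^ n * ballVol n r := by
  unfold ballVol
  rw [Measure.addHaar_ball_mul_of_pos volume (0 : EuclideanSpace ℝ (Fin n)) hc r, ENNReal.toReal_mul,
    ENNReal.toReal_ofReal (by positivity), finrank_euclideanSpace, Fintype.card_fin]

theorem loc (hT : S_TORUS) : S_LOC := by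
  intro n hn r hr hr4 v T hTm hTv
  have h3 : 0 < Real.sqrt 3 / 2 := by positivity
  have h31 : Real.sqrt 3 / 2 ≤ 1 := by
    have : Real.sqrt 3 ≤ 2 := by
      rw [Real.sqrt_le_left (by norm_num)]
      norm_num
    linarith
  set ρ := Real.sqrt 3 / 2 * r with hρ
  have hρ0 : 0 < ρ := by positivity
  have hρ2 : ρ ≤ 1 / 2 := by nlinarith
  have hball := (hT n hn ρ hρ0 hρ2).1
  set B := ENNReal.ofReal (ballVol n ρ) with hB
  set ν := (vol n).restrict T with hν
  -- measurability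
  have hm1 : Measurable fun p : Torus n × Torus n => sqd p.2 p.1 :=
    ((cont_sqd n).comp continuous_swap).measurable
  have hmv : Measurable fun y : Torus n => sqd y v :=
    ((cont_sqd n).comp (continuous_id.prodMk continuous_const)).measurable
  have hP : MeasurableSet {p : Torus n × Torus n | sqd p.2 p.1 < r ^ 2 ∧ sqd p.1 v ≤ sqd p.2 v} :=
    (measurableSet_lt hm1 measurable_const).inter
      (measurableSet_le (hmv.comp measurable_fst) (hmv.comp measurable_snd))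
  have hP1 : ∀ u, MeasurableSet {y : Torus n | sqd y u < r ^ 2 ∧ sqd u v ≤ sqd y v} := fun u =>
    measurable_prodMk_left hP
  have hPu : ∀ u : Torus n, Measurable fun y : Torus n => sqd y u := fun u =>
    ((cont_sqd n).comp (continuous_id.prodMk continuous_const)).measurable
  have hP2 : ∀ u, MeasurableSet {y : Torus n | sqd y u < r ^ 2 ∧ sqd y v ≤ sqd u v} := fun u =>
    (measurableSet_lt (hPu u) measurable_const).inter (measurableSet_le hmv measurable_const)
  -- symmetry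
  have hsymm : ∫⁻ u, ν {y | sqd y u < r ^ 2 ∧ sqd u v ≤ sqd y v} ∂ν =
      ∫⁻ u, ν {y | sqd y u < r ^ 2 ∧ sqd y v ≤ sqd u v} ∂ν := by
    have e1 := Measure.prod_apply (μ := ν) (ν := ν) hP
    have e2 := Measure.prod_apply_symm (μ := ν) (ν := ν) hP
    have e3 : ∫⁻ u, ν {y | sqd y u < r ^ 2 ∧ sqd u v ≤ sqd y v} ∂ν = (ν.prod ν)
      {p : Torus n × Torus n | sqd p.2 p.1 < r ^ 2 ∧ sqd p.1 v ≤ sqd p.2 v} := e1.symm
    rw [e3, e2]
    refine lintegral_congr fun u => ?_
    congr 1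
    ext y
    simp only [mem_preimage, mem_ofPred_eq, sqd_comm u y]
  -- the bound for one point
  have hone : ∀ u ∈ T, ν {y | sqd y u < r ^ 2 ∧ sqd y v ≤ sqd u v} ≤ B := by
    intro u hu
    obtain ⟨w, hw⟩ := geo hr hr4 u v (hTv hu)
    rw [hν, Measure.restrict_apply (hP2 u), ← hball w]
    refine measure_mono ?_
    rintro y ⟨⟨h5, h6⟩, h7⟩
    exact hw y (hTv h7) h5 h6
  have hsplit : ∀ u, vol n (T ∩ {y | sqd y u < r ^ 2}) ≤
      ν {y | sqd y u < r ^ 2 ∧ sqd u v ≤ sqd y v} +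
        ν {y | sqd y u < r ^ 2 ∧ sqd y v ≤ sqd u v} := by
    intro u
    rw [hν, Measure.restrict_apply (hP1 u), Measure.restrict_apply (hP2 u)]
    refine (measure_mono ?_).trans (measure_union_le _ _)
    rintro y ⟨h5, h6⟩
    rcases le_total (sqd u v) (sqd y v) with h7 | h7
    · exact Or.inl ⟨⟨h6, h7⟩, h5⟩
    · exact Or.inr ⟨⟨h6, h7⟩, h5⟩
  have hmeas : Measurable fun u => ν {y | sqd y u < r ^ 2 ∧ sqd u v ≤ sqd y v} :=
    measurable_measure_prodMk_left hP
  have hbd : ∫⁻ u, ν {y | sqd y u < r ^ 2 ∧ sqd y v ≤ sqd u v} ∂ν ≤ B * vol n T := by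
    calc _ ≤ ∫⁻ _u, B ∂ν := by
          refine lintegral_mono_ae ?_
          rw [hν]
          exact (ae_restrict_iff' hTm).2 (Filter.Eventually.of_forall fun u hu => hone u hu)
      _ = B * vol n T := by rw [lintegral_const, hν, Measure.restrict_apply_univ]
  calc ∫⁻ u in T, vol n (T ∩ {y | sqd y u < r ^ 2}) ∂(vol n)
      ≤ ∫⁻ u, (ν {y | sqd y u < r ^ 2 ∧ sqd u v ≤ sqd y v} +
        ν {y | sqd y u < r ^ 2 ∧ sqd y v ≤ sqd u v}) ∂ν := lintegral_mono hsplit
    _ = 2 * ∫⁻ u, ν {y | sqd y u < r ^ 2 ∧ sqd y v ≤ sqd u v} ∂ν := by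
        rw [lintegral_add_left hmeas, hsymm, two_mul]
    _ ≤ 2 * (B * vol n T) := by gcongr
    _ = ENNReal.ofReal (2 * (Real.sqrt 3 / 2) ^ n * ballVol n r) * vol n T := by
        rw [← mul_assoc, hB, hρ, ballVol_scale n h3 r, mul_assoc 2 _ (ballVol n r),
          ENNReal.ofReal_mul (by norm_num : (0 : ℝ) ≤ 2), ENNReal.ofReal_ofNat]

end Pool.Agent.N342.HG
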